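import Mathlib

/-!
# Embedded eigenvalues of open quantum graphs with irrational edge lengths

For every `n` there are a finite connected graph without loops, with a lead and without vertices of
degree two, and edge lengths which are linearly independent over `ℤ`, such that the Kirchhoff
Laplacian has at least `n` (embedded) eigenvalues.

The graph has the vertices `v_1, …, v_n` and `w`, five edges from each `v_i` to `w` and one lead
at `w`. With `k_i = 1 / c_i` and edge lengths `c_i θ_e`, `tan (θ_e / 2) = t_e`, where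
`t = (-15, -5/3, 8/3, 6, 8)` satisfies `∑ t_e = ∑ 1 / t_e = 0`, the function
`sin (k_i (l - x)) / sin θ_e` on the five edges at `v_i`, zero elsewhere, is an eigenfunction.
The `θ_e` are linearly independent, as the Gaussian integers of which they are the arguments are
multiplicatively independent.
-/

set_option autoImplicit false

noncomputable section

namespace Pool.Agent.Results.MP_332ffb_mp.EmbeddedEigenvalues

open MeasureTheory

/-- An open graph: a finite graph with oriented edges `E` (the orientation only serves to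
parametrise them) from `src e` to `tgt e`, and leads `L` attached at the vertices `att`. -/
structure OpenGraph where
  /-- vertices -/
  V : Type
  /-- edges -/
  E : Type
  /-- leads -/
  L : Type
  [finV : Fintype V]
  [decV : DecidableEq V]
  [finE : Fintype E]
  [finL : Fintype L]
  /-- start of an edge -/
  src : E → V
  /-- end of an edge -/
  tgt : E → V
  /-- vertex to which a lead is attached -/
  att : L → V

attribute [instance] OpenGraph.finV OpenGraph.decV OpenGraph.finE OpenGraph.finL

namespace OpenGraph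

variable (G : OpenGraph)

/-- The degree of a vertex, leads included. -/
def degree (v : G.V) : ℕ :=
  (Finset.univ.filter fun e => G.src e = v).card + (Finset.univ.filter fun e => G.tgt e = v).card +
    (Finset.univ.filter fun a => G.att a = v).card

/-- The graph `(V, E)` is connected. -/
def Connected : Prop :=
  Nonempty G.V ∧ ∀ v w : G.V,
    Relation.ReflTransGen (fun x y => ∃ e, (G.src e = x ∧ G.tgt e = y) ∨
      (G.src e = y ∧ G.tgt e = x)) v w

/-- No edge is a loop. -/
def Loopless : Prop := ∀ e, G.src e ≠ G.tgt e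

/-- The hypotheses on the graph: connected, at least one lead, no vertex of degree two. -/
def Admissible : Prop := G.Connected ∧ Nonempty G.L ∧ ∀ v, G.degree v ≠ 2

/-- `g` is the derivative of `f` and `-lam f` is the derivative of `g` on the set `s`. -/
def SolvesOn (lam : ℝ) (s : Set ℝ) (f g : ℝ → ℂ) : Prop :=
  ∀ x ∈ s, HasDerivWithinAt f (g x) s x ∧ HasDerivWithinAt g (-(lam : ℂ) * f x) s x

/-- `u` (on the edges) and `w` (on the leads) form a nonzero square integrable eigenfunction of the
Laplacian with Kirchhoff conditions, with eigenvalue `lam`; `u'` and `w'` are the derivatives. -/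
structure IsEigenfunction (l : G.E → ℝ) (lam : ℝ) (u u' : G.E → ℝ → ℂ) (w w' : G.L → ℝ → ℂ) :
    Prop where
  /-- the equation `-u'' = lam u` on the edges -/
  edge : ∀ e, SolvesOn lam (Set.Icc 0 (l e)) (u e) (u' e)
  /-- the equation `-w'' = lam w` on the leads -/
  lead : ∀ a, SolvesOn lam (Set.Ici 0) (w a) (w' a)
  /-- continuity at the vertices -/
  continuity : ∃ φ : G.V → ℂ, (∀ e, u e 0 = φ (G.src e) ∧ u e (l e) = φ (G.tgt e)) ∧
    ∀ a, w a 0 = φ (G.att a)
  /-- the sum of the outgoing derivatives at every vertex is zero -/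
  kirchhoff : ∀ v, ∑ e with G.src e = v, u' e 0 - ∑ e with G.tgt e = v, u' e (l e) +
    ∑ a with G.att a = v, w' a 0 = 0
  /-- square integrability -/
  sqInt : (∀ e, IntegrableOn (fun x => ‖u e x‖ ^ 2) (Set.Icc 0 (l e))) ∧
    ∀ a, IntegrableOn (fun x => ‖w a x‖ ^ 2) (Set.Ici 0)
  /-- the function is not zero -/
  ne_zero : (∃ e, ∃ x ∈ Set.Icc 0 (l e), u e x ≠ 0) ∨ ∃ a, ∃ x ∈ Set.Ici (0 : ℝ), w a x ≠ 0

/-- `lam` is an eigenvalue of the Laplacian of the open graph `G` with edge lengths `l`. -/
def IsEigenvalue (l : G.E → ℝ) (lam : ℝ) : Prop :=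
  ∃ u u' w w', G.IsEigenfunction l lam u u' w w'

end OpenGraph

/-! ### the five angles -/

/-- numerators of `tan (θ / 2)` -/
def pp : Fin 5 → ℤ := ![-15, -5, 8, 6, 8]

/-- denominators of `tan (θ / 2)` -/
def qq : Fin 5 → ℤ := ![1, 3, 3, 1, 1]

/-- the numbers `tan (θ / 2)` -/
def tq (e : Fin 5) : ℝ := (pp e : ℝ) / (qq e : ℝ)

/-- the angles -/
def th (e : Fin 5) : ℝ := 2 * Real.arctan (tq e) + if tq e < 0 then 2 * Real.pi else 0

theorem qq_pos (e : Fin 5) : (0 : ℝ) < qq e := by
  fin_cases e <;> simp [qq]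

theorem tq_ne (e : Fin 5) : tq e ≠ 0 := by
  fin_cases e <;> simp [tq, pp, qq]

theorem th_pos (e : Fin 5) : 0 < th e := by
  unfold th
  split_ifs with h
  · have := Real.neg_pi_div_two_lt_arctan (tq e)
    have := Real.pi_pos
    linarith
  · have h1 : 0 < tq e := lt_of_le_of_ne (not_lt.1 h) (tq_ne e).symm
    have := Real.arctan_pos.2 h1
    linarith

theorem sin_th (e : Fin 5) : Real.sin (th e) = 2 * tq e / (1 + tq e ^ 2) := by
  have h : Real.sin (th e) = Real.sin (2 * Real.arctan (tq e)) := by
    unfold th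
    split_ifs
    · rw [Real.sin_add_two_pi]
    · rw [add_zero]
  rw [h, Real.sin_two_mul, Real.sin_arctan, Real.cos_arctan]
  have h1 : (0 : ℝ) < 1 + tq e ^ 2 := by positivity
  have h2 := Real.sq_sqrt h1.le
  have h3 : 0 < Real.sqrt (1 + tq e ^ 2) := Real.sqrt_pos.2 h1
  rw [mul_assoc, div_mul_div_comm, mul_one, ← pow_two, h2]
  ring

theorem cos_th (e : Fin 5) : Real.cos (th e) = (1 - tq e ^ 2) / (1 + tq e ^ 2) := by
  have h : Real.cos (th e) = Real.cos (2 * Real.arctan (tq e)) := by
    unfold th
    split_ifs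
    · rw [Real.cos_add_two_pi]
    · rw [add_zero]
  have h1 : (0 : ℝ) < 1 + tq e ^ 2 := by positivity
  rw [h, Real.cos_two_mul, Real.cos_sq_arctan]
  field_simp
  ring

theorem sin_th_ne (e : Fin 5) : Real.sin (th e) ≠ 0 := by
  rw [sin_th]
  have h1 : (0 : ℝ) < 1 + tq e ^ 2 := by positivity
  have := tq_ne e
  positivity

theorem tq0 : tq 0 = -15 := by simp [tq, pp, qq]
theorem tq1 : tq 1 = -5 / 3 := by simp [tq, pp, qq]
theorem tq2 : tq 2 = 8 / 3 := by
  have h1 : pp 2 = 8 := rfl
  have h2 : qq 2 = 3 := rfl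
  simp [tq, h1, h2]
theorem tq3 : tq 3 = 6 := by
  have h1 : pp 3 = 6 := rfl
  have h2 : qq 3 = 1 := rfl
  simp [tq, h1, h2]
theorem tq4 : tq 4 = 8 := by
  have h1 : pp 4 = 8 := rfl
  have h2 : qq 4 = 1 := rfl
  simp [tq, h1, h2]

theorem sum_inv_sin : ∑ e, (Real.sin (th e))⁻¹ = 0 := by
  simp only [sin_th, Fin.sum_univ_five, tq0, tq1, tq2, tq3, tq4]
  norm_num

theorem sum_cot : ∑ e, Real.cos (th e) / Real.sin (th e) = 0 := by
  simp only [sin_th, cos_th, Fin.sum_univ_five, tq0, tq1, tq2, tq3, tq4]
  norm_num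

/-! ### linear independence of the angles -/

/-- the Gaussian integers `q + i p` -/
def zz (e : Fin 5) : GaussianInt := ⟨qq e, pp e⟩

/-- their conjugates -/
def zc (e : Fin 5) : GaussianInt := ⟨qq e, -pp e⟩

theorem exp_th (e : Fin 5) :
    Complex.exp ((th e : ℂ) * Complex.I) * (zc e : ℂ) = (zz e : ℂ) := by
  have h1 : (1 + tq e ^ 2) ≠ 0 := by positivity
  have hq : (qq e : ℝ) ≠ 0 := (qq_pos e).ne'
  have hp : (pp e : ℝ) = tq e * qq e := by
    unfold tq
    field_simp
  have hs := sin_th e
  have hc := cos_th e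
  rw [Complex.exp_mul_I]
  apply Complex.ext
  · simp [zz, zc, GaussianInt.toComplex_def, Complex.cos_ofReal_re, Complex.sin_ofReal_re]
    rw [hp, hs, hc]
    field_simp
    ring
  · simp [zz, zc, GaussianInt.toComplex_def, Complex.cos_ofReal_re, Complex.sin_ofReal_re]
    rw [hp, hs, hc]
    field_simp
    ring

theorem zz_ne (e : Fin 5) : (zz e : ℂ) ≠ 0 := by
  intro h
  have h1 : zz e = 0 := by
    have : (zz e : ℂ) = ((0 : GaussianInt) : ℂ) := by simpa using h
    exact GaussianInt.toComplex_inj.1 this
  have h2 := congrArg Zsqrtd.re h1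
  revert h2
  fin_cases e <;> simp [zz, qq]

theorem zc_ne (e : Fin 5) : (zc e : ℂ) ≠ 0 := by
  intro h
  have h1 : zc e = 0 := by
    have : (zc e : ℂ) = ((0 : GaussianInt) : ℂ) := by simpa using h
    exact GaussianInt.toComplex_inj.1 this
  have h2 := congrArg Zsqrtd.re h1
  revert h2
  fin_cases e <;> simp [zc, qq]

/-- an integer relation between the angles gives a relation in `ℤ[i]` -/
theorem relation (n : Fin 5 → ℤ) (h : ∑ e, (n e : ℝ) * th e = 0) :
    ∏ e, (zz e ^ (n e).toNat * zc e ^ (-n e).toNat) =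
      ∏ e, (zc e ^ (n e).toNat * zz e ^ (-n e).toNat) := by
  apply GaussianInt.toComplex_inj.1
  rw [map_prod, map_prod]
  simp only [map_mul, map_pow]
  have key : ∀ e, (zz e : ℂ) ^ (n e).toNat * (zc e : ℂ) ^ (-n e).toNat =
      Complex.exp ((n e : ℂ) * th e * Complex.I) *
        ((zc e : ℂ) ^ (n e).toNat * (zz e : ℂ) ^ (-n e).toNat) := by
    intro e
    have h1 := exp_th e
    rcases le_total 0 (n e) with h0 | h0
    · obtain ⟨k, hk⟩ := Int.eq_ofNat_of_zero_le h0
      rw [hk]
      have e1 : ((k : ℤ)).toNat = k := Int.toNat_natCast k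
      have e2 : (-(k : ℤ)).toNat = 0 := by omega
      rw [e1, e2, pow_zero, pow_zero, mul_one, mul_one, ← h1, mul_pow, ← Complex.exp_nat_mul]
      congr 2
      push_cast
      ring
    · obtain ⟨k, hk⟩ := Int.eq_ofNat_of_zero_le (neg_nonneg.2 h0)
      have hk' : n e = -(k : ℤ) := by omega
      rw [hk']
      have e1 : (-(k : ℤ)).toNat = 0 := by omega
      have e2 : (-(-(k : ℤ))).toNat = k := by omega
      rw [e1, e2, pow_zero, pow_zero, one_mul, one_mul, ← h1, mul_pow, ← Complex.exp_nat_mul,
        ← mul_assoc, ← Complex.exp_add]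
      have e3 : (((-(k : ℤ) : ℤ) : ℂ) * th e * Complex.I + (k : ℂ) * (th e * Complex.I)) = 0 := by
        push_cast
        ring
      rw [e3, Complex.exp_zero, one_mul]
  rw [Finset.prod_congr rfl fun e _ => key e, Finset.prod_mul_distrib, ← Complex.exp_sum]
  have h2 : ∑ e, (n e : ℂ) * th e * Complex.I = 0 := by
    rw [← Finset.sum_mul]
    have : ∑ e, (n e : ℂ) * (th e : ℂ) = ((∑ e, (n e : ℝ) * th e : ℝ) : ℂ) := by push_cast; rfl
    rw [this, h]
    simp
  rw [h2, Complex.exp_zero, one_mul]

/-- a ring homomorphism to a field which kills `zz j` only -/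
theorem no_relation {F : Type} [Field F] (f : GaussianInt →+* F) (j : Fin 5) (hj : f (zz j) = 0)
    (hc : ∀ e, f (zc e) ≠ 0) (hz : ∀ e, e ≠ j → f (zz e) ≠ 0) (n : Fin 5 → ℤ)
    (h : ∑ e, (n e : ℝ) * th e = 0) : n j = 0 := by
  have hrel := congrArg f (relation n h)
  rw [map_prod, map_prod] at hrel
  simp only [map_mul, map_pow] at hrel
  by_contra hne
  rcases lt_or_gt_of_ne hne with hlt | hgt
  · -- right side zero
    have h0 : (n j).toNat = 0 := by omega
    have h1 : (-n j).toNat ≠ 0 := by omega
    have hR : ∏ e, (f (zc e) ^ (n e).toNat * f (zz e) ^ (-n e).toNat) = 0 := by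
      refine Finset.prod_eq_zero (Finset.mem_univ j) ?_
      rw [hj, zero_pow h1, mul_zero]
    have hL : ∏ e, (f (zz e) ^ (n e).toNat * f (zc e) ^ (-n e).toNat) ≠ 0 := by
      refine Finset.prod_ne_zero_iff.2 fun e _ => ?_
      by_cases he : e = j
      · subst he
        rw [h0, pow_zero, one_mul]
        exact pow_ne_zero _ (hc e)
      · exact mul_ne_zero (pow_ne_zero _ (hz e he)) (pow_ne_zero _ (hc e))
    exact hL (hrel.trans hR)
  · have h0 : (-n j).toNat = 0 := by omega
    have h1 : (n j).toNat ≠ 0 := by omega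
    have hL : ∏ e, (f (zz e) ^ (n e).toNat * f (zc e) ^ (-n e).toNat) = 0 := by
      refine Finset.prod_eq_zero (Finset.mem_univ j) ?_
      rw [hj, zero_pow h1, zero_mul]
    have hR : ∏ e, (f (zc e) ^ (n e).toNat * f (zz e) ^ (-n e).toNat) ≠ 0 := by
      refine Finset.prod_ne_zero_iff.2 fun e _ => ?_
      by_cases he : e = j
      · subst he
        rw [h0, pow_zero, mul_one]
        exact pow_ne_zero _ (hc e)
      · exact mul_ne_zero (pow_ne_zero _ (hc e)) (pow_ne_zero _ (hz e he))
    exact hR (hrel.symm.trans hL)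

theorem no_relation_mod (p : ℕ) [Fact p.Prime] (r : ZMod p) (hr : r * r = -1) (j : Fin 5)
    (hj : (qq j : ZMod p) + pp j * r = 0)
    (hc : ∀ e, (qq e : ZMod p) - pp e * r ≠ 0)
    (hz : ∀ e, e ≠ j → (qq e : ZMod p) + pp e * r ≠ 0) (n : Fin 5 → ℤ)
    (h : ∑ e, (n e : ℝ) * th e = 0) : n j = 0 := by
  let f : GaussianInt →+* ZMod p := Zsqrtd.lift ⟨r, by rw [hr]; simp⟩
  have hf : ∀ a b : ℤ, f ⟨a, b⟩ = (a : ZMod p) + b * r := fun a b => rfl
  refine no_relation f j ?_ ?_ ?_ n h
  · rw [zz, hf]; exact hj
  · intro e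
    rw [zc, hf]
    have := hc e
    push_cast
    rwa [neg_mul, ← sub_eq_add_neg]
  · intro e he
    rw [zz, hf]; exact hz e he

instance : Fact (Nat.Prime 113) := ⟨by norm_num⟩
instance : Fact (Nat.Prime 17) := ⟨by norm_num⟩
instance : Fact (Nat.Prime 73) := ⟨by norm_num⟩
instance : Fact (Nat.Prime 37) := ⟨by norm_num⟩
instance : Fact (Nat.Prime 5) := ⟨by norm_num⟩

/-- the five angles are linearly independent over `ℤ` -/
theorem th_indep : LinearIndependent ℤ th := by
  rw [Fintype.linearIndependent_iff]
  intro n hn j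
  have h : ∑ e, (n e : ℝ) * th e = 0 := by simpa using hn
  fin_cases j
  · exact no_relation_mod 113 98 (by decide) 0 (by decide) (by decide) (by decide) n h
  · exact no_relation_mod 17 4 (by decide) 1 (by decide) (by decide) (by decide) n h
  · exact no_relation_mod 73 27 (by decide) 2 (by decide) (by decide) (by decide) n h
  · exact no_relation_mod 37 6 (by decide) 3 (by decide) (by decide) (by decide) n h
  · exact no_relation_mod 5 3 (by decide) 4 (by decide) (by decide) (by decide) n h

/-! ### scaled copies -/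

/-- For every countable subfield of the reals and every `n` there are `n` positive reals
which are linearly independent over it. -/
theorem exists_indep (K : Subfield ℝ) [Countable K] (n : ℕ) :
    ∃ c : Fin n → ℝ, (∀ i, 0 < c i) ∧ LinearIndependent K c := by
  have hrank : (n : Cardinal) ≤ Module.rank K ℝ := by
    refine (Cardinal.natCast_lt_aleph0.le).trans ?_
    by_contra hlt
    rw [not_le, Module.rank_lt_aleph0_iff] at hlt
    have hc : Countable ℝ := by
      let b := Module.finBasis K ℝ
      exact b.equivFun.toEquiv.countable_iff.2 inferInstance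
    exact Cardinal.not_countable_real (Set.countable_univ_iff.2 hc)
  obtain ⟨v, hv⟩ := Module.le_rank_iff.1 hrank
  let w : Fin n → Kˣ := fun i => if 0 < v i then 1 else -1
  refine ⟨w • v, fun i => ?_, hv.units_smul w⟩
  have hne := hv.ne_zero i
  show 0 < w i • v i
  by_cases h : 0 < v i
  · simp only [w, if_pos h, one_smul, h]
  · simp only [w, if_neg h, Units.neg_smul, one_smul]
    exact neg_pos.2 (lt_of_le_of_ne (not_lt.1 h) hne)

/-- `n` positive scaling factors such that all scaled angles are linearly independent over `ℤ`. -/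
theorem exists_scaling (n : ℕ) : ∃ c : Fin n → ℝ, (∀ i, 0 < c i) ∧ Function.Injective c ∧
    LinearIndependent ℤ (fun p : Fin n × Fin 5 => c p.1 * th p.2) := by
  let K : Subfield ℝ := Subfield.closure (Set.range th)
  have hK : Countable K := by
    rw [← Cardinal.mk_le_aleph0_iff]
    refine (Subfield.cardinalMk_closure_le_max _).trans (max_le ?_ le_rfl)
    exact Cardinal.mk_le_aleph0_iff.2 (Set.countable_range th).to_subtype
  obtain ⟨c, hc, hi⟩ := exists_indep K n
  refine ⟨c, hc, hi.injective, ?_⟩
  rw [Fintype.linearIndependent_iff]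
  intro m hm
  have hth : ∀ e, th e ∈ K := fun e => Subfield.subset_closure ⟨e, rfl⟩
  have hsum : ∀ i : Fin n, ∑ e, (m (i, e) : ℝ) * th e ∈ K := fun i =>
    sum_mem fun e _ => mul_mem (intCast_mem K _) (hth e)
  have h1 : ∑ i, (⟨∑ e, (m (i, e) : ℝ) * th e, hsum i⟩ : K) • c i = 0 := by
    have h2 : ∀ i, (⟨∑ e, (m (i, e) : ℝ) * th e, hsum i⟩ : K) • c i =
        (∑ e, (m (i, e) : ℝ) * th e) * c i := fun i => rfl
    rw [← hm, Fintype.sum_prod_type]
    refine Finset.sum_congr rfl fun i _ => ?_
    rw [h2, Finset.sum_mul]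
    refine Finset.sum_congr rfl fun e _ => ?_
    simp only [zsmul_eq_mul]
    ring
  have h3 := Fintype.linearIndependent_iff.1 hi _ h1
  rintro ⟨i, e⟩
  have h4 : ∑ e, (m (i, e) : ℝ) * th e = 0 := congrArg Subtype.val (h3 i)
  exact Fintype.linearIndependent_iff.1 th_indep (fun e => m (i, e)) (by simpa using h4) e

/-! ### the graph -/

/-- The graph: vertices `some i` and `none`, five edges from `some i` to `none`, one lead at
`none`. -/
def gr (n : ℕ) : OpenGraph where
  V := Option (Fin n)
  E := Fin n × Fin 5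
  L := Unit
  src e := some e.1
  tgt _ := none
  att _ := none

theorem gr_loopless (n : ℕ) : (gr n).Loopless := fun _ => Option.some_ne_none _

theorem gr_connected (n : ℕ) : (gr n).Connected := by
  refine ⟨⟨none⟩, ?_⟩
  have h1 : ∀ v : Option (Fin n), Relation.ReflTransGen (fun x y => ∃ e, ((gr n).src e = x ∧
      (gr n).tgt e = y) ∨ ((gr n).src e = y ∧ (gr n).tgt e = x)) v none := by
    intro v
    rcases v with _ | i
    · exact Relation.ReflTransGen.refl
    · exact Relation.ReflTransGen.single ⟨(i, 0), Or.inl ⟨rfl, rfl⟩⟩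
  have h2 : ∀ v : Option (Fin n), Relation.ReflTransGen (fun x y => ∃ e, ((gr n).src e = x ∧
      (gr n).tgt e = y) ∨ ((gr n).src e = y ∧ (gr n).tgt e = x)) none v := by
    intro v
    rcases v with _ | i
    · exact Relation.ReflTransGen.refl
    · exact Relation.ReflTransGen.single ⟨(i, 0), Or.inr ⟨rfl, rfl⟩⟩
  exact fun v w => (h1 v).trans (h2 w)

theorem gr_degree (n : ℕ) (v : Option (Fin n)) : (gr n).degree v ≠ 2 := by
  rcases v with _ | i
  · have h1 : (Finset.univ.filter fun e : Fin n × Fin 5 => (some e.1 : Option (Fin n)) = none).card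
        = 0 := by simp
    have h2 : (Finset.univ.filter fun _ : Fin n × Fin 5 => (none : Option (Fin n)) = none).card
        = n * 5 := by simp
    have h3 : (Finset.univ.filter fun _ : Unit => (none : Option (Fin n)) = none).card = 1 := by
      simp
    have h4 : (gr n).degree none = 0 + n * 5 + 1 := by
      unfold OpenGraph.degree
      exact congrArg₂ (· + ·) (congrArg₂ (· + ·) h1 h2) h3
    intro h
    have h5 := h4.symm.trans h
    omega
  · have h1 : (Finset.univ.filter fun e : Fin n × Fin 5 =>
        (some e.1 : Option (Fin n)) = some i).card = 5 := by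
      have : (Finset.univ.filter fun e : Fin n × Fin 5 => (some e.1 : Option (Fin n)) = some i) =
          {i} ×ˢ Finset.univ := by
        ext e
        rw [Finset.mem_filter, Finset.mem_product, Finset.mem_singleton]
        simp
      rw [this]
      simp
    have h2 : (Finset.univ.filter fun _ : Fin n × Fin 5 => (none : Option (Fin n)) = some i).card
        = 0 := by simp
    have h3 : (Finset.univ.filter fun _ : Unit => (none : Option (Fin n)) = some i).card = 0 := by
      simp
    have h4 : (gr n).degree (some i) = 5 + 0 + 0 := by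
      unfold OpenGraph.degree
      exact congrArg₂ (· + ·) (congrArg₂ (· + ·) h1 h2) h3
    intro h
    have h5 := h4.symm.trans h
    omega

/-! ### the eigenfunctions -/

/-- the sine function on an edge: `sin ((l - x) / c) / sin θ` -/
def fS (c l s : ℝ) (x : ℝ) : ℂ := ((Real.sin ((l - x) / c) / s : ℝ) : ℂ)

/-- its derivative -/
def fC (c l s : ℝ) (x : ℝ) : ℂ := ((-(Real.cos ((l - x) / c) / (c * s)) : ℝ) : ℂ)

theorem solves (c l s : ℝ) (hc : 0 < c) (S : Set ℝ) :
    OpenGraph.SolvesOn (1 / c ^ 2) S (fS c l s) (fC c l s) := by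
  intro x _
  have h0 : HasDerivAt (fun x : ℝ => (l - x) / c) (-1 / c) x := by
    have := ((hasDerivAt_id x).const_sub l).div_const c
    simpa using this
  constructor
  · have h1 : HasDerivAt (fun x : ℝ => Real.sin ((l - x) / c) / s)
        (-(Real.cos ((l - x) / c) / (c * s))) x := by
      refine ((h0.sin).div_const s).congr_deriv ?_
      by_cases hs : s = 0
      · subst hs; simp
      · field_simp
    exact (h1.ofReal_comp).hasDerivWithinAt
  · have h1 : HasDerivAt (fun x : ℝ => -(Real.cos ((l - x) / c) / (c * s)))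
        (-(1 / c ^ 2) * (Real.sin ((l - x) / c) / s)) x := by
      refine (((h0.cos).div_const (c * s)).neg).congr_deriv ?_
      by_cases hs : s = 0
      · subst hs; simp
      · field_simp
    have h2 := (h1.ofReal_comp).hasDerivWithinAt (s := S)
    have e1 : (((-(1 / c ^ 2) * (Real.sin ((l - x) / c) / s) : ℝ)) : ℂ) =
        -((1 / c ^ 2 : ℝ) : ℂ) * fS c l s x := by
      unfold fS
      push_cast
      ring
    rw [← e1]
    exact h2

theorem solves_zero (lam : ℝ) (S : Set ℝ) :
    OpenGraph.SolvesOn lam S (fun _ => 0) (fun _ => 0) := by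
  intro x _
  refine ⟨hasDerivWithinAt_const _ _ _, ?_⟩
  rw [mul_zero]
  exact hasDerivWithinAt_const _ _ _

theorem eigen {n : ℕ} (c : Fin n → ℝ) (hc : ∀ i, 0 < c i) (i : Fin n) :
    (gr n).IsEigenvalue (fun p : Fin n × Fin 5 => c p.1 * th p.2) (1 / c i ^ 2) := by
  let u : Fin n × Fin 5 → ℝ → ℂ := fun p =>
    if p.1 = i then fS (c i) (c i * th p.2) (Real.sin (th p.2)) else fun _ => 0
  let u' : Fin n × Fin 5 → ℝ → ℂ := fun p =>
    if p.1 = i then fC (c i) (c i * th p.2) (Real.sin (th p.2)) else fun _ => 0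
  have hci := (hc i).ne'
  have hu0 : ∀ p, u p 0 = if p.1 = i then 1 else 0 := by
    intro p
    simp only [u]
    split_ifs with h
    · unfold fS
      rw [sub_zero, mul_div_cancel_left₀ _ hci, div_self (sin_th_ne _)]
      simp
    · rfl
  have hul : ∀ p, u p (c p.1 * th p.2) = 0 := by
    intro p
    simp only [u]
    split_ifs with h
    · rw [h]
      unfold fS
      simp
    · rfl
  have hd0 : ∀ e, u' (i, e) 0 = ((-(1 / c i) * (Real.cos (th e) / Real.sin (th e)) : ℝ) : ℂ) := by
    intro e
    simp only [u', if_true]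
    unfold fC
    rw [sub_zero, mul_div_cancel_left₀ _ hci]
    congr 1
    have := sin_th_ne e
    field_simp
  have hdl : ∀ e, u' (i, e) (c i * th e) = ((-(1 / c i) * (Real.sin (th e))⁻¹ : ℝ) : ℂ) := by
    intro e
    simp only [u', if_true]
    unfold fC
    rw [sub_self, zero_div, Real.cos_zero]
    congr 1
    have := sin_th_ne e
    field_simp
  have hdz : ∀ p x, p.1 ≠ i → u' p x = 0 := by
    intro p x h
    simp only [u', if_neg h]
  refine ⟨u, u', fun _ _ => 0, fun _ _ => 0, ?_, ?_, ?_, ?_, ?_, ?_⟩
  · intro p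
    by_cases h : p.1 = i
    · simp only [u, u', if_pos h]
      exact solves _ _ _ (hc i) _
    · simp only [u, u', if_neg h]
      exact solves_zero _ _
  · intro _
    exact solves_zero _ _
  · refine ⟨fun v : Option (Fin n) => if v = some i then 1 else 0, fun p => ⟨?_, ?_⟩, fun _ => ?_⟩
    · refine (hu0 p).trans ?_
      show _ = if (some p.1 : Option (Fin n)) = some i then (1 : ℂ) else 0
      simp only [Option.some.injEq]
    · refine (hul p).trans ?_
      show _ = if (none : Option (Fin n)) = some i then (1 : ℂ) else 0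
      simp
    · show (0 : ℂ) = if (none : Option (Fin n)) = some i then (1 : ℂ) else 0
      simp
  · intro v
    have key : ∀ (f : Fin n × Fin 5 → ℂ), (∀ p, p.1 ≠ i → f p = 0) →
        ∑ p, f p = ∑ e, f (i, e) := by
      intro f hf
      rw [Fintype.sum_prod_type]
      refine Finset.sum_eq_single i (fun j _ hj => ?_) (fun h => absurd (Finset.mem_univ i) h)
      exact Finset.sum_eq_zero fun e _ => hf (j, e) hj
    have hA : ∑ e with (gr n).src e = v, u' e 0 = 0 := by
      rw [Finset.sum_filter]
      have h1 : ∀ p : Fin n × Fin 5, p.1 ≠ i →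
          (if (gr n).src p = v then u' p 0 else 0) = 0 := by
        intro p hp
        rw [hdz p 0 hp, ite_self]
      refine (key _ h1).trans ?_
      have h2 : ∀ e, (gr n).src (i, e) = (gr n).src (i, 0) := fun _ => rfl
      by_cases hv : (gr n).src (i, 0) = v
      · simp only [h2, if_pos hv]
        rw [Finset.sum_congr rfl fun e _ => hd0 e, ← Complex.ofReal_sum, ← Finset.mul_sum, sum_cot]
        simp
      · simp only [h2, if_neg hv]
        simp
    have hB : ∑ e with (gr n).tgt e = v, u' e (c e.1 * th e.2) = 0 := by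
      rw [Finset.sum_filter]
      have h1 : ∀ p : Fin n × Fin 5, p.1 ≠ i →
          (if (gr n).tgt p = v then u' p (c p.1 * th p.2) else 0) = 0 := by
        intro p hp
        rw [hdz p _ hp, ite_self]
      refine (key _ h1).trans ?_
      have h2 : ∀ e, (gr n).tgt (i, e) = (gr n).tgt (i, 0) := fun _ => rfl
      by_cases hv : (gr n).tgt (i, 0) = v
      · simp only [h2, if_pos hv]
        rw [Finset.sum_congr rfl fun e _ => hdl e, ← Complex.ofReal_sum, ← Finset.mul_sum,
          sum_inv_sin]
        simp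
      · simp only [h2, if_neg hv]
        simp
    show ∑ e with (gr n).src e = v, u' e 0 - ∑ e with (gr n).tgt e = v, u' e (c e.1 * th e.2) +
      ∑ a with (gr n).att a = v, (0 : ℂ) = 0
    rw [hA, hB]
    simp
  · constructor
    · intro p
      refine ContinuousOn.integrableOn_Icc ?_
      refine Continuous.continuousOn ?_
      by_cases h : p.1 = i
      · simp only [u, if_pos h]
        unfold fS
        fun_prop
      · simp only [u, if_neg h]
        fun_prop
    · intro _
      simp
  · left
    refine ⟨(i, 0), 0, ⟨le_rfl, (mul_pos (hc i) (th_pos 0)).le⟩, ?_⟩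
    rw [hu0]
    simp

/-- **Disproof of Q1.** For every `n` there are a finite connected loopless graph with a lead and
without vertices of degree two, and positive edge lengths which are linearly independent over `ℤ`,
such that the Kirchhoff Laplacian has at least `n` distinct positive eigenvalues with nonzero
square integrable eigenfunctions. -/
theorem result (n : ℕ) : ∃ (G : OpenGraph) (l : G.E → ℝ), G.Admissible ∧ G.Loopless ∧
    (∀ e, 0 < l e) ∧ LinearIndependent ℤ l ∧
    ∃ lam : Fin n → ℝ, Function.Injective lam ∧ ∀ i, 0 < lam i ∧ G.IsEigenvalue l (lam i) := by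
  obtain ⟨c, hc, hinj, hlin⟩ := exists_scaling n
  refine ⟨gr n, fun p => c p.1 * th p.2, ⟨gr_connected n, ⟨()⟩, gr_degree n⟩, gr_loopless n,
    fun p => mul_pos (hc p.1) (th_pos p.2), hlin, fun i => 1 / c i ^ 2, ?_, fun i =>
    ⟨by have := hc i; positivity, eigen c hc i⟩⟩
  intro i j hij
  have h1 : 1 / c i ^ 2 = 1 / c j ^ 2 := hij
  have h2 : c i ^ 2 = c j ^ 2 := by
    rw [one_div, one_div] at h1
    exact inv_injective h1
  exact hinj ((pow_left_inj₀ (hc i).le (hc j).le two_ne_zero).1 h2)

end Pool.Agent.Results.MP_332ffb_mp.EmbeddedEigenvalues
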